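import Pool.Agent.H703.NL.Sizes

set_option autoImplicit false
set_option linter.unusedSectionVars false

/-!
# Solving the recursion
-/

namespace Pool.Agent.H703.NL

open Finset Pool.Agent.W956.KF

/-- The property `P` holds for a polynomially dense set of sizes: for some `C` every interval
`[n, n ^ C]` with `n ≥ 2` contains a `k` with `P k`. -/
def PolyDense (P : ℕ → Prop) : Prop :=
  ∃ C : ℕ, ∀ n : ℕ, 2 ≤ n → ∃ k : ℕ, n ≤ k ∧ k ≤ n ^ C ∧ P k

section

variable (K : Type) [Field K]

/-- the normalised size -/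
noncomputable def E (n : ℕ) : ℝ := 1 + (sizeMM K n : ℝ) / (n : ℝ) ^ 2

theorem one_le_E (n : ℕ) : 1 ≤ E K n := by
  unfold E
  have : 0 ≤ (sizeMM K n : ℝ) / (n : ℝ) ^ 2 := by positivity
  linarith

theorem E_step {k c t n : ℕ} (hk : 1 ≤ k) (ht : 1 ≤ t) (hn : 1 ≤ n) (hc : 1 ≤ c)
    (hr : trank K k k k ≤ c * k ^ 2) (h1 : n ≤ k ^ 2 * t) (h2 : k ^ 2 * t ≤ 2 * n) {X : ℝ}
    (hX1 : E K (k * t) ≤ X) (hX2 : E K (k ^ 2) ≤ X) : E K n ≤ 16 * c * X := by
  have h3 : (sizeMM K n : ℝ) ≤ c * k ^ 2 * sizeMM K (k * t) + 3 * (c * t ^ 2 * sizeMM K (k ^ 2)) +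
      c * k ^ 2 * (k * t) ^ 2 := by
    exact_mod_cast (sizeMM_mono K h1).trans (sizeMM_step K hr)
  have hk0 : (0 : ℝ) < k := by exact_mod_cast hk
  have ht0 : (0 : ℝ) < t := by exact_mod_cast ht
  have hn0 : (0 : ℝ) < n := by exact_mod_cast hn
  have hc0 : (1 : ℝ) ≤ c := by exact_mod_cast hc
  have h2' : (k : ℝ) ^ 2 * t ≤ 2 * n := by exact_mod_cast h2
  have hs1 : (sizeMM K (k * t) : ℝ) = (E K (k * t) - 1) * ((k : ℝ) * t) ^ 2 := by
    unfold E
    push_cast
    field_simp
    ring
  have hs2 : (sizeMM K (k ^ 2) : ℝ) = (E K (k ^ 2) - 1) * ((k : ℝ) ^ 2) ^ 2 := by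
    unfold E
    push_cast
    field_simp
    ring
  rw [hs1, hs2] at h3
  have h4 : (sizeMM K n : ℝ) ≤ c * (4 * X - 3) * ((k : ℝ) ^ 2 * t) ^ 2 := by
    refine h3.trans ?_
    have e1 : (c : ℝ) * k ^ 2 * ((E K (k * t) - 1) * ((k : ℝ) * t) ^ 2) +
        3 * (c * t ^ 2 * ((E K (k ^ 2) - 1) * ((k : ℝ) ^ 2) ^ 2)) + c * k ^ 2 * ((k : ℝ) * t) ^ 2 =
        c * ((k : ℝ) ^ 2 * t) ^ 2 * (E K (k * t) + 3 * E K (k ^ 2) - 3) := by ring
    rw [e1]
    have e2 : c * (4 * X - 3) * ((k : ℝ) ^ 2 * t) ^ 2 =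
        c * ((k : ℝ) ^ 2 * t) ^ 2 * (X + 3 * X - 3) := by ring
    rw [e2]
    refine mul_le_mul_of_nonneg_left ?_ (by positivity)
    linarith
  have hX : 1 ≤ X := (one_le_E K _).trans hX1
  have h5 : ((k : ℝ) ^ 2 * t) ^ 2 ≤ 4 * (n : ℝ) ^ 2 := by
    calc ((k : ℝ) ^ 2 * t) ^ 2 ≤ (2 * (n : ℝ)) ^ 2 := by
          apply pow_le_pow_left₀ (by positivity) h2'
      _ = 4 * (n : ℝ) ^ 2 := by ring
  have h6 : (sizeMM K n : ℝ) ≤ c * (4 * X - 3) * (4 * (n : ℝ) ^ 2) :=
    h4.trans (mul_le_mul_of_nonneg_left h5 (mul_nonneg (by positivity) (by linarith)))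
  have h7 : (sizeMM K n : ℝ) / (n : ℝ) ^ 2 ≤ c * (4 * X - 3) * 4 := by
    rw [div_le_iff₀ (by positivity)]
    linarith
  unfold E
  nlinarith [mul_nonneg (by linarith : (0 : ℝ) ≤ c - 1) (by linarith : (0 : ℝ) ≤ X - 1)]

/-- Solving the recursion for an arbitrary potential function. -/
theorem engine {P : ℕ → Prop} (hd : PolyDense P) : ∃ q : ℝ, 0 < q ∧ q < 1 ∧ ∀ G : ℕ → ℝ,
    (∀ k, 1 ≤ G k) → (∀ k, P k → (mulMM K k : ℝ) ≤ G k * (k : ℝ) ^ 2) → ∀ Φ : ℝ → ℝ,
    (∀ x y, 0 ≤ x → x ≤ y → Φ x ≤ Φ y) → ∀ x₀ : ℝ,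
    (∀ x, x₀ ≤ x → ∀ k : ℕ, 1 ≤ k → Real.log k ≤ x →
      Real.log 48 + Real.log (G k) + Φ (q * x) ≤ Φ x) →
    ∃ M : ℝ, ∀ n : ℕ, 1 ≤ n → E K n ≤ Real.exp (M + Φ (Real.log n)) := by
  classical
  obtain ⟨C, hC⟩ := hd
  have hC1 : 1 ≤ C := by
    by_contra hcon
    have : C = 0 := by omega
    subst this
    obtain ⟨k, h1, h2, -⟩ := hC 2 le_rfl
    simp at h2
    omega
  have hC0 : (1 : ℝ) ≤ C := by exact_mod_cast hC1
  have hinv : 1 / (8 * (C : ℝ)) ≤ 1 / 8 := by
    apply one_div_le_one_div_of_le (by norm_num)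
    linarith
  have hinv0 : 0 < 1 / (8 * (C : ℝ)) := by positivity
  refine ⟨1 - 1 / (8 * C), by linarith, by linarith, ?_⟩
  intro G hG hPG Φ hΦ x₀ hstep
  set q : ℝ := 1 - 1 / (8 * C) with hq
  -- the threshold
  obtain ⟨N₀, hN₀⟩ := exists_nat_ge (Real.exp (max x₀ (12 * C)))
  let B : ℝ := ∑ n ∈ range (N₀ + 1), E K n
  have hB : ∀ n ≤ N₀, E K n ≤ B := fun n hn =>
    Finset.single_le_sum (f := fun n => E K n) (fun i _ => by linarith [one_le_E K i])
      (Finset.mem_range.2 (by omega))
  have hB1 : 1 ≤ B := (one_le_E K 0).trans (hB 0 (Nat.zero_le _))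
  refine ⟨Real.log B - Φ 0, fun n => ?_⟩
  induction n using Nat.strong_induction_on with
  | _ n ih =>
    intro hn
    have hn0 : (0 : ℝ) < n := by exact_mod_cast hn
    have hlog0 : 0 ≤ Real.log n := Real.log_nonneg (by exact_mod_cast hn)
    by_cases hcase : n ≤ N₀
    · calc E K n ≤ B := hB n hcase
        _ = Real.exp (Real.log B) := (Real.exp_log (by linarith)).symm
        _ ≤ Real.exp (Real.log B - Φ 0 + Φ (Real.log n)) := by
          apply Real.exp_le_exp.2
          have := hΦ 0 (Real.log n) le_rfl hlog0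
          linarith
    · push Not at hcase
      set x : ℝ := Real.log n with hx
      have hx1 : max x₀ (12 * C) ≤ x := by
        rw [hx, Real.le_log_iff_exp_le hn0]
        exact hN₀.trans (by exact_mod_cast hcase.le)
      have hx2 : x₀ ≤ x := (le_max_left _ _).trans hx1
      have hx3 : 12 * (C : ℝ) ≤ x := (le_max_right _ _).trans hx1
      have hx0 : 0 < x := by linarith
      have hlog2 : Real.log 2 ≤ 1 := by
        have := Real.log_two_lt_d9
        linarith
      -- the block size
      set y : ℝ := Real.exp (x / (4 * C)) with hy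
      have hy1 : 1 < y := by
        rw [hy]
        apply Real.one_lt_exp_iff.2
        positivity
      obtain ⟨k, hk1, hk2, hPk⟩ := hC ⌈y⌉₊ (by
        have : (1 : ℕ) < ⌈y⌉₊ := by
          rw [Nat.lt_ceil]
          exact_mod_cast hy1
        omega)
      have hyk : y ≤ k := (Nat.le_ceil y).trans (by exact_mod_cast hk1)
      have hk0 : (0 : ℝ) < k := by linarith
      have hkpos : 1 ≤ k := by exact_mod_cast (Nat.pos_of_ne_zero (by
        rintro rfl
        simp at hk0))
      have hlk1 : x / (4 * C) ≤ Real.log k := by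
        rw [Real.le_log_iff_exp_le hk0]
        exact hyk
      have hlk2 : Real.log k ≤ x / 3 := by
        have h1 : (k : ℝ) ≤ (2 * y) ^ C := by
          calc (k : ℝ) ≤ ((⌈y⌉₊ : ℕ) : ℝ) ^ C := by exact_mod_cast hk2
            _ ≤ (2 * y) ^ C := by
              apply pow_le_pow_left₀ (by positivity)
              have := (Nat.ceil_lt_add_one (by linarith : 0 ≤ y)).le
              linarith
        have h2 : Real.log k ≤ C * (Real.log 2 + x / (4 * C)) := by
          calc Real.log k ≤ Real.log ((2 * y) ^ C) := Real.log_le_log hk0 h1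
            _ = C * (Real.log 2 + x / (4 * C)) := by
              rw [Real.log_pow, Real.log_mul (by norm_num) (by positivity), hy, Real.log_exp]
        have h3 : (C : ℝ) * (Real.log 2 + x / (4 * C)) = C * Real.log 2 + x / 4 := by
          field_simp
        rw [h3] at h2
        have h4 : (C : ℝ) * Real.log 2 ≤ C * 1 := mul_le_mul_of_nonneg_left hlog2 (by linarith)
        linarith
      have hlk0 : 0 ≤ Real.log k := le_trans (by positivity) hlk1
      have hk2n : (k : ℝ) ^ 2 ≤ n := by
        have h1 : Real.log ((k : ℝ) ^ 2) ≤ Real.log n := by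
          rw [Real.log_pow]
          push_cast
          linarith
        exact (Real.log_le_log_iff (by positivity) hn0).1 h1
      have hk2n' : k ^ 2 ≤ n := by exact_mod_cast hk2n
      have hk2pos : 0 < k ^ 2 := by positivity
      -- the number of blocks
      set t : ℕ := (n + k ^ 2 - 1) / k ^ 2 with ht
      have ht1 : n ≤ k ^ 2 * t := by
        have h1 := Nat.div_add_mod (n + k ^ 2 - 1) (k ^ 2)
        have h2 := Nat.mod_lt (n + k ^ 2 - 1) hk2pos
        rw [← ht] at h1
        omega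
      have ht2 : k ^ 2 * t ≤ n + k ^ 2 := by
        have h1 := Nat.div_mul_le_self (n + k ^ 2 - 1) (k ^ 2)
        rw [← ht, mul_comm] at h1
        omega
      have htpos : 1 ≤ t := by
        rcases Nat.eq_zero_or_pos t with h | h
        · rw [h, mul_zero] at ht1
          omega
        · exact h
      have ht0 : (0 : ℝ) < t := by exact_mod_cast htpos
      have hkt : (k : ℝ) * t ≤ 2 * n / k := by
        rw [le_div_iff₀ hk0]
        have h1 : (k : ℝ) ^ 2 * t ≤ n + (k : ℝ) ^ 2 := by exact_mod_cast ht2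
        nlinarith
      have hlkt : Real.log ((k : ℝ) * t) ≤ q * x := by
        calc Real.log ((k : ℝ) * t) ≤ Real.log (2 * n / k) :=
              Real.log_le_log (by positivity) hkt
          _ = Real.log 2 + x - Real.log k := by
            rw [Real.log_div (by positivity) hk0.ne', Real.log_mul (by norm_num) hn0.ne']
          _ ≤ q * x := by
            have h1 : x / (4 * C) = 2 * (1 / (8 * C) * x) := by
              field_simp
              ring
            have h2 : (1 : ℝ) ≤ 1 / (8 * C) * x := by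
              rw [one_div_mul_eq_div, le_div_iff₀ (by positivity)]
              linarith
            rw [hq]
            linarith
      have hlk2q : Real.log ((k : ℝ) ^ 2) ≤ q * x := by
        rw [Real.log_pow]
        push_cast
        have : (7 / 8 : ℝ) * x ≤ q * x := mul_le_mul_of_nonneg_right (by linarith) hx0.le
        linarith
      have hqx : q * x < x := by
        rw [hq]
        have : 0 < 1 / (8 * C) * x := by positivity
        linarith
      have hktn : k * t < n := by
        have h1 : Real.log ((k : ℝ) * t) < Real.log n := lt_of_le_of_lt hlkt hqx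
        have h2 := (Real.log_lt_log_iff (by positivity) hn0).1 h1
        exact_mod_cast h2
      have hk2n'' : k ^ 2 < n := by
        have h1 : Real.log ((k : ℝ) ^ 2) < Real.log n := lt_of_le_of_lt hlk2q hqx
        have h2 := (Real.log_lt_log_iff (by positivity) hn0).1 h1
        exact_mod_cast h2
      have ih1 := ih (k * t) hktn (Nat.mul_pos hkpos htpos)
      have ih2 := ih (k ^ 2) hk2n'' hk2pos
      set M : ℝ := Real.log B - Φ 0 with hM
      have ih1' : E K (k * t) ≤ Real.exp (M + Φ (q * x)) := by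
        refine ih1.trans (Real.exp_le_exp.2 ?_)
        have h1 : 0 ≤ Real.log ((k * t : ℕ) : ℝ) := Real.log_nonneg (by
          exact_mod_cast Nat.mul_pos hkpos htpos)
        have h2 := hΦ _ (q * x) h1 (by push_cast; exact hlkt)
        linarith
      have ih2' : E K (k ^ 2) ≤ Real.exp (M + Φ (q * x)) := by
        refine ih2.trans (Real.exp_le_exp.2 ?_)
        have h1 : 0 ≤ Real.log ((k ^ 2 : ℕ) : ℝ) := Real.log_nonneg (by
          exact_mod_cast hk2pos)
        have h2 := hΦ _ (q * x) h1 (by push_cast; exact hlk2q)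
        linarith
      -- the rank
      set c : ℕ := ⌈2 * G k⌉₊ with hc
      have hG1 := hG k
      have hc1 : 1 ≤ c := Nat.one_le_ceil_iff.2 (by linarith)
      have hc2 : (c : ℝ) ≤ 3 * G k := by
        have := (Nat.ceil_lt_add_one (by linarith : 0 ≤ 2 * G k)).le
        rw [← hc] at this
        linarith
      have hrk : trank K k k k ≤ c * k ^ 2 := by
        have h1 : (trank K k k k : ℝ) ≤ 2 * mulMM K k := by exact_mod_cast trank_le_mulMM K k
        have h2 := hPG k hPk
        have h3 : 2 * G k ≤ c := Nat.le_ceil _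
        have h4 : (trank K k k k : ℝ) ≤ c * k ^ 2 := by
          calc (trank K k k k : ℝ) ≤ 2 * (G k * k ^ 2) := by linarith
            _ = (2 * G k) * k ^ 2 := by ring
            _ ≤ c * k ^ 2 := mul_le_mul_of_nonneg_right h3 (by positivity)
        exact_mod_cast h4
      have hmain := E_step K hkpos htpos hn hc1 hrk ht1 (by omega) ih1' ih2'
      have hs := hstep x hx2 k hkpos (by linarith)
      calc E K n ≤ 16 * c * Real.exp (M + Φ (q * x)) := hmain
        _ ≤ 16 * (3 * G k) * Real.exp (M + Φ (q * x)) := by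
          apply mul_le_mul_of_nonneg_right _ (Real.exp_pos _).le
          linarith
        _ = Real.exp (Real.log 48) * Real.exp (Real.log (G k)) * Real.exp (M + Φ (q * x)) := by
          rw [Real.exp_log (by norm_num), Real.exp_log (by linarith : 0 < G k)]
          ring
        _ = Real.exp (Real.log 48 + Real.log (G k) + (M + Φ (q * x))) := by
          rw [← Real.exp_add, ← Real.exp_add]
        _ ≤ Real.exp (M + Φ x) := Real.exp_le_exp.2 (by linarith)

end

end Pool.Agent.H703.NL
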