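import Pool.Agent.H590.NL.Stm

/-!
IF: integrability for F in all dimensions (adapted from the planar file of helper276).
-/

set_option autoImplicit false
set_option linter.unusedVariables false
set_option linter.unusedSectionVars false

noncomputable section

open MeasureTheory Filter Topology Set
open scoped BigOperators ENNReal

namespace Pool.Agent.H703.NLIF

open H590NL

theorem int_abs {c : ℝ} (hc : 0 < c) : Integrable (fun x : ℝ => Real.exp (-(c * |x|))) := by
  rw [← integrableOn_univ, ← Iic_union_Ioi (a := (0 : ℝ)), integrableOn_union]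
  constructor
  · refine (integrableOn_exp_mul_Iic hc 0).congr_fun (fun x hx => ?_) measurableSet_Iic
    show Real.exp (c * x) = Real.exp (-(c * |x|))
    rw [abs_of_nonpos hx]
    congr 1
    ring
  · refine (integrableOn_exp_mul_Ioi (neg_lt_zero.2 hc) 0).congr_fun (fun x hx => ?_)
      measurableSet_Ioi
    show Real.exp (-c * x) = Real.exp (-(c * |x|))
    rw [abs_of_pos hx]
    congr 1
    ring

/-- the sum of the absolute values -/
def S1 {n : ℕ} (x : V n) : ℝ := ∑ i, |x i|

theorem S1_nonneg {n : ℕ} (x : V n) : 0 ≤ S1 x := Finset.sum_nonneg fun i _ => abs_nonneg _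

theorem int_prod {n : ℕ} {c : ℝ} (hc : 0 < c) :
    Integrable (fun x : V n => Real.exp (-(c * S1 x))) := by
  have h := Integrable.fintype_prod (ι := Fin n) (μ := fun _ => (volume : Measure ℝ))
    (f := fun _ (t : ℝ) => Real.exp (-(c * |t|))) (fun _ => int_abs hc)
  have h' : Integrable (fun x : V n => ∏ i, Real.exp (-(c * |x i|))) := h
  refine h'.congr (Eventually.of_forall fun x => ?_)
  show ∏ i, Real.exp (-(c * |x i|)) = Real.exp (-(c * S1 x))
  rw [← Real.exp_sum]
  congr 1
  unfold S1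
  rw [Finset.mul_sum, Finset.sum_neg_distrib]

section

variable {n : ℕ} {κ : Type} [Fintype κ]

theorem ip_cont (v : V n) : Continuous (ip v) := by
  unfold ip
  fun_prop

theorem tau_cont {p : ℝ} (hp : 0 < p) (v : κ → V n) (k : κ) : Continuous (tau p v k) := by
  unfold tau
  exact ((ip_cont (v k)).abs).rpow_const fun _ => Or.inr hp.le

theorem Ph_cont {p : ℝ} (hp : 0 < p) (v : κ → V n) (b : κ → ℝ) : Continuous (Ph p v b) := by
  unfold Ph
  exact continuous_finsetSum _ fun k _ => continuous_const.mul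
    (((ip_cont (v k)).abs).rpow_const fun _ => Or.inr hp.le)

theorem pow_ge {p s : ℝ} (hp : 1 < p) (hs : 0 ≤ s) : s - 1 ≤ s ^ p := by
  rcases le_total s 1 with h | h
  · have := Real.rpow_nonneg hs p
    linarith
  · have h1 := Real.rpow_le_rpow_of_exponent_le h hp.le
    rw [Real.rpow_one] at h1
    linarith

theorem tau_le_Ph (p : ℝ) (v : κ → V n) (k : κ) (x : V n) :
    |ip (v k) x| ^ p ≤ Ph p v one x := by
  unfold Ph
  have h3 := Finset.single_le_sum (f := fun k => (one k : ℝ) * |ip (v k) x| ^ p)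
    (fun j _ => by
      show 0 ≤ (1 : ℝ) * |ip (v j) x| ^ p
      rw [one_mul]
      exact Real.rpow_nonneg (abs_nonneg _) _) (Finset.mem_univ k)
  have h4 : (fun k => (one k : ℝ) * |ip (v k) x| ^ p) k = |ip (v k) x| ^ p := one_mul _
  rw [← h4]
  exact h3

theorem Ph_nonneg (p : ℝ) (v : κ → V n) (x : V n) : 0 ≤ Ph p v one x := by
  unfold Ph
  refine Finset.sum_nonneg fun j _ => ?_
  show 0 ≤ (1 : ℝ) * |ip (v j) x| ^ p
  rw [one_mul]
  exact Real.rpow_nonneg (abs_nonneg _) _

theorem Ph_ge_one {p : ℝ} (hp : 1 < p) (v : κ → V n) (k : κ) (x : V n) :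
    |ip (v k) x| - 1 ≤ Ph p v one x :=
  (pow_ge hp (abs_nonneg (ip (v k) x))).trans (tau_le_Ph p v k x)

/-- The coordinates are bounded by the products with a basis. -/
theorem basis_bd {v : κ → V n} {f : Fin n → κ} (hf : (dm v f).det ≠ 0) :
    ∃ C : ℝ, 0 ≤ C ∧ ∀ x : V n, S1 x ≤ C * ∑ i, |ip (v (f i)) x| := by
  set M := dm v f with hM
  have hu : IsUnit M.det := isUnit_iff_ne_zero.2 hf
  refine ⟨∑ i, ∑ j, |M⁻¹ i j|, Finset.sum_nonneg fun i _ => Finset.sum_nonneg fun j _ =>
    abs_nonneg _, fun x => ?_⟩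
  have hx : ∀ i, x i = ∑ j, M⁻¹ i j * ip (v (f j)) x := by
    intro i
    have h1 : M⁻¹.mulVec (M.mulVec x) = x := by
      rw [Matrix.mulVec_mulVec, Matrix.nonsing_inv_mul _ hu, Matrix.one_mulVec]
    have h2 : M⁻¹.mulVec (M.mulVec x) i = ∑ j, M⁻¹ i j * ip (v (f j)) x := rfl
    rw [← h2, h1]
  unfold S1
  rw [Finset.sum_mul]
  refine Finset.sum_le_sum fun i _ => ?_
  rw [hx i, Finset.sum_mul]
  refine (Finset.abs_sum_le_sum_abs _ _).trans (Finset.sum_le_sum fun j _ => ?_)
  rw [abs_mul]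
  refine mul_le_mul_of_nonneg_left ?_ (abs_nonneg _)
  exact Finset.single_le_sum (f := fun i => |ip (v (f i)) x|) (fun i _ => abs_nonneg _)
    (Finset.mem_univ j)

/-- linear lower bound of the potential -/
theorem Ph_ge {p : ℝ} (hp : 1 < p) {v : κ → V n} (hv : Spans v) :
    ∃ c : ℝ, 0 < c ∧ ∀ x : V n, c * S1 x - 1 ≤ Ph p v one x := by
  obtain ⟨f, hf⟩ := hv
  obtain ⟨C, hC, hb⟩ := basis_bd hf
  have hn : (0 : ℝ) ≤ (n : ℝ) := Nat.cast_nonneg n
  have hCn : 0 ≤ C * n := mul_nonneg hC hn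
  refine ⟨1 / (C * n + 1), by positivity, fun x => ?_⟩
  have h1 : ∑ i, |ip (v (f i)) x| ≤ n * (Ph p v one x + 1) := by
    have h2 : ∑ i : Fin n, |ip (v (f i)) x| ≤ ∑ _i : Fin n, (Ph p v one x + 1) :=
      Finset.sum_le_sum fun i _ => by linarith [Ph_ge_one hp v (f i) x]
    rw [Finset.sum_const, Finset.card_univ, Fintype.card_fin, nsmul_eq_mul] at h2
    exact h2
  have h0 := Ph_nonneg p v x
  have h3 : S1 x ≤ (C * n + 1) * (Ph p v one x + 1) := by
    calc S1 x ≤ C * ∑ i, |ip (v (f i)) x| := hb x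
      _ ≤ C * (n * (Ph p v one x + 1)) := mul_le_mul_of_nonneg_left h1 hC
      _ = (C * n) * (Ph p v one x + 1) := by ring
      _ ≤ (C * n + 1) * (Ph p v one x + 1) :=
        mul_le_mul_of_nonneg_right (by linarith) (by linarith)
  have h4 : 1 / (C * n + 1) * S1 x ≤ Ph p v one x + 1 := by
    rw [div_mul_eq_mul_div, one_mul, div_le_iff₀ (by positivity)]
    linarith
  linarith

theorem poly_exp {c : ℝ} (hc : 0 < c) : ∃ K : ℝ, 0 < K ∧ ∀ r : ℝ, 0 ≤ r →
    (1 + r) ^ 4 ≤ K * Real.exp (c / 2 * r) := by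
  set δ := min (c / 8) 1 with hδ
  have hδ0 : 0 < δ := lt_min (by positivity) one_pos
  have hδ1 : δ ≤ 1 := min_le_right _ _
  have hδc : δ ≤ c / 8 := min_le_left _ _
  refine ⟨(1 / δ) ^ 4, by positivity, fun r hr => ?_⟩
  have h1 : 1 + r ≤ 1 / δ * Real.exp (δ * r) := by
    have h2 := Real.add_one_le_exp (δ * r)
    rw [div_mul_eq_mul_div, one_mul, le_div_iff₀ hδ0]
    nlinarith
  have h3 : (1 + r) ^ 4 ≤ (1 / δ * Real.exp (δ * r)) ^ 4 := pow_le_pow_left₀ (by positivity) h1 4
  refine h3.trans ?_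
  rw [mul_pow, ← Real.exp_nat_mul]
  refine mul_le_mul_of_nonneg_left ?_ (by positivity)
  refine Real.exp_le_exp.2 ?_
  push_cast
  nlinarith

/-- the domination, general form: `exp(-Φ) g` is integrable if `|g| ≤ C exp(Φ/2)` -/
theorem dom_half {p : ℝ} (hp : 1 < p) {v : κ → V n} (hv : Spans v) {g : V n → ℝ}
    (hg : Measurable g) {C : ℝ} (hC : ∀ x, |g x| ≤ C * Real.exp (Ph p v one x / 2)) :
    Integrable (fun x => Real.exp (-(Ph p v one x)) * g x) := by
  obtain ⟨c, hc, hPh⟩ := Ph_ge hp hv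
  have hC0 : 0 ≤ C := by
    have h := (abs_nonneg _).trans (hC 0)
    exact nonneg_of_mul_nonneg_left h (Real.exp_pos _)
  have hint := (int_prod (n := n) (half_pos hc)).const_mul (Real.exp (1 / 2) * C)
  refine hint.mono' ?_ (Eventually.of_forall fun x => ?_)
  · refine Measurable.aestronglyMeasurable ?_
    exact ((Ph_cont (by linarith) v one).measurable.neg.exp).mul hg
  · rw [Real.norm_eq_abs, abs_mul, abs_of_pos (Real.exp_pos _)]
    have h1 := hPh x
    calc Real.exp (-(Ph p v one x)) * |g x|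
        ≤ Real.exp (-(Ph p v one x)) * (C * Real.exp (Ph p v one x / 2)) :=
          mul_le_mul_of_nonneg_left (hC x) (Real.exp_pos _).le
      _ = C * Real.exp (-(Ph p v one x) + Ph p v one x / 2) := by
          rw [Real.exp_add]
          ring
      _ ≤ C * Real.exp (1 / 2 + -(c / 2 * S1 x)) := by
          refine mul_le_mul_of_nonneg_left (Real.exp_le_exp.2 ?_) hC0
          linarith
      _ = Real.exp (1 / 2) * C * Real.exp (-(c / 2 * S1 x)) := by
          rw [Real.exp_add]
          ring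

/-- `exp(-Φ/2)` is integrable -/
theorem int_half {p : ℝ} (hp : 1 < p) {v : κ → V n} (hv : Spans v) :
    Integrable (fun x => Real.exp (-(Ph p v one x) / 2)) := by
  have h := dom_half hp hv (g := fun x => Real.exp (Ph p v one x / 2))
    (((Ph_cont (by linarith) v one).measurable.div_const 2).exp) (C := 1) (fun x => by
      rw [abs_of_pos (Real.exp_pos _), one_mul])
  refine h.congr (Eventually.of_forall fun x => ?_)
  show Real.exp (-(Ph p v one x)) * Real.exp (Ph p v one x / 2) = _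
  rw [← Real.exp_add]
  congr 1
  ring

/-- the domination, polynomial form -/
theorem dom {p : ℝ} (hp : 1 < p) {v : κ → V n} (hv : Spans v) {f : V n → ℝ} (hf : Measurable f)
    {C : ℝ} (hC : ∀ x, |f x| ≤ C * (1 + S1 x) ^ 4) :
    Integrable (fun x => Real.exp (-(Ph p v one x)) * f x) := by
  obtain ⟨c, hc, hPh⟩ := Ph_ge hp hv
  obtain ⟨K, hK, hpoly⟩ := poly_exp hc
  have hC0 : 0 ≤ C := by
    have h := (abs_nonneg _).trans (hC 0)
    have h1 : (0 : ℝ) < (1 + S1 (0 : V n)) ^ 4 := by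
      have := S1_nonneg (0 : V n)
      positivity
    exact nonneg_of_mul_nonneg_left h h1
  refine dom_half hp hv hf (C := C * K * Real.exp (1 / 2)) fun x => ?_
  have h0 := S1_nonneg x
  have h1 := hPh x
  calc |f x| ≤ C * (K * Real.exp (c / 2 * S1 x)) :=
        (hC x).trans (mul_le_mul_of_nonneg_left (hpoly _ h0) hC0)
    _ ≤ C * (K * Real.exp (1 / 2 + Ph p v one x / 2)) := by
        refine mul_le_mul_of_nonneg_left (mul_le_mul_of_nonneg_left
          (Real.exp_le_exp.2 ?_) hK.le) hC0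
        linarith
    _ = C * K * Real.exp (1 / 2) * Real.exp (Ph p v one x / 2) := by
        rw [Real.exp_add]
        ring

theorem tlog {t : ℝ} (ht : 0 ≤ t) : |t * Real.log t| ≤ 1 + t ^ 2 := by
  rcases ht.eq_or_lt with h | h
  · rw [← h]
    norm_num
  · have h1 := Real.log_le_sub_one_of_pos h
    have h2 := Real.log_le_sub_one_of_pos (inv_pos.2 h)
    rw [Real.log_inv] at h2
    have h3 : t * (t⁻¹ - 1) = 1 - t := by
      field_simp
    have h4 : t * -Real.log t ≤ 1 - t := by
      rw [← h3]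
      exact mul_le_mul_of_nonneg_left h2 h.le
    have h5 : t * Real.log t ≤ t * (t - 1) := mul_le_mul_of_nonneg_left h1 h.le
    rw [abs_le]
    constructor <;> nlinarith

/-- `1 + t ^ 2 ≤ 17 exp (t / 2)` for `t ≥ 0` -/
theorem sq_exp {t : ℝ} (ht : 0 ≤ t) : 1 + t ^ 2 ≤ 17 * Real.exp (t / 2) := by
  have h1 := Real.add_one_le_exp (t / 4)
  have h2 : (t / 4 + 1) ^ 2 ≤ Real.exp (t / 4) ^ 2 := pow_le_pow_left₀ (by positivity) h1 2
  have h3 : Real.exp (t / 4) ^ 2 = Real.exp (t / 2) := by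
    rw [← Real.exp_nat_mul]
    congr 1
    push_cast
    ring
  rw [h3] at h2
  nlinarith

theorem tau_bd {p : ℝ} (hp : 1 < p) (hp2 : p ≤ 2) (v : κ → V n) (k : κ) :
    ∃ B : ℝ, 0 ≤ B ∧ ∀ x, 0 ≤ tau p v k x ∧ tau p v k x ≤ B * (1 + S1 x) ^ 2 := by
  set b := 1 + S1 (v k) with hb
  have hb0 := S1_nonneg (v k)
  have hb1 : 1 ≤ b := by linarith
  refine ⟨b ^ 2, by positivity, fun x => ⟨Real.rpow_nonneg (abs_nonneg _) _, ?_⟩⟩
  have hr0 := S1_nonneg x
  have h1 : |ip (v k) x| ≤ b * (1 + S1 x) := by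
    have h2 : |ip (v k) x| ≤ S1 (v k) * S1 x := by
      unfold ip
      refine (Finset.abs_sum_le_sum_abs _ _).trans ?_
      unfold S1
      rw [Finset.sum_mul]
      refine Finset.sum_le_sum fun i _ => ?_
      rw [abs_mul]
      refine mul_le_mul_of_nonneg_left ?_ (abs_nonneg _)
      exact Finset.single_le_sum (f := fun i => |x i|) (fun i _ => abs_nonneg _)
        (Finset.mem_univ i)
    nlinarith
  have h2 : 1 ≤ b * (1 + S1 x) := by nlinarith
  unfold tau
  calc |ip (v k) x| ^ p ≤ (b * (1 + S1 x)) ^ p :=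
        Real.rpow_le_rpow (abs_nonneg _) h1 (by linarith)
    _ ≤ (b * (1 + S1 x)) ^ (2 : ℝ) := Real.rpow_le_rpow_of_exponent_le h2 hp2
    _ = b ^ 2 * (1 + S1 x) ^ 2 := by
        rw [Real.rpow_two]
        ring

end

theorem IF : S_IF := by
  intro n κ _ p hp hp2 v hv
  have h1 : Integrable (fun x => Real.exp (-(Ph p v one x))) := by
    have h := dom_half hp hv (g := fun _ => 1) measurable_const (C := 1) (fun x => by
      rw [abs_one, one_mul]
      exact Real.one_le_exp (by linarith [Ph_nonneg p v x]))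
    simpa using h
  refine ⟨h1, ?_, fun k => ?_⟩
  · exact integral_exp_pos h1
  · have hm : Measurable (tau p v k) := (tau_cont (by linarith) v k).measurable
    have ht0 : ∀ x, 0 ≤ tau p v k x := fun x => Real.rpow_nonneg (abs_nonneg _) _
    have hle : ∀ x, 1 + tau p v k x ^ 2 ≤ 17 * Real.exp (Ph p v one x / 2) := fun x => by
      refine (sq_exp (ht0 x)).trans (mul_le_mul_of_nonneg_left (Real.exp_le_exp.2 ?_) (by norm_num))
      have := tau_le_Ph p v k x
      unfold tau
      linarith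
    constructor
    · refine dom_half hp hv hm (C := 17) fun x => ?_
      rw [abs_of_nonneg (ht0 x)]
      refine le_trans ?_ (hle x)
      nlinarith [ht0 x, sq_nonneg (tau p v k x - 1)]
    · refine dom_half hp hv (g := fun x => tau p v k x * Real.log (tau p v k x))
        (hm.mul hm.log) (C := 17) fun x => ?_
      exact (tlog (ht0 x)).trans (hle x)

end Pool.Agent.H703.NLIF
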