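import Pool.Agent.H703.NL.Sizes
import Pool.Agent.H703.NL.Engine

set_option autoImplicit false
set_option linter.unusedSectionVars false

/-!
# The size, scale by scale
-/

namespace Pool.Agent.H703.NL

open Finset Pool.Agent.W956.KF

/-- the school method -/
theorem sizeMM_le_cube (K : Type) [Field K] (m : ℕ) : sizeMM K m ≤ 2 * m ^ 3 := by
  refine sizeMM_le_of_costMM K ?_
  intro R _ _ T hT A B hA hB
  have h0 : (0 : R) ∈ T := by simpa using hT 0
  refine (cost_comb (T := T) h0 (a := Fin m) (b := Fin m) (c := Fin m) (fun i k => A i k)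
    (fun j k => B k j) (fun _ _ => hA _ _) (fun _ _ => hB _ _)).mono subset_rfl ?_ (le_of_eq ?_)
  · rintro _ ⟨i, j, rfl⟩
    exact ⟨(i, j), by rw [Matrix.mul_apply]⟩
  · simp only [Fintype.card_fin]
    ring

theorem E_le (K : Type) [Field K] (n : ℕ) : E K n ≤ 1 + 2 * n := by
  unfold E
  rcases Nat.eq_zero_or_pos n with h | h
  · subst h
    simp
  · have hn : (0 : ℝ) < n := by exact_mod_cast h
    have h1 : (sizeMM K n : ℝ) ≤ 2 * (n : ℝ) ^ 3 := by exact_mod_cast sizeMM_le_cube K n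
    have h2 : (sizeMM K n : ℝ) / (n : ℝ) ^ 2 ≤ 2 * n := by
      rw [div_le_iff₀ (by positivity)]
      calc (sizeMM K n : ℝ) ≤ 2 * (n : ℝ) ^ 3 := h1
        _ = 2 * n * (n : ℝ) ^ 2 := by ring
    linarith

theorem size_le_of_E' (K : Type) [Field K] {n : ℕ} (hn : 1 ≤ n) {X Y : ℝ}
    (h : E K n ≤ X * Y) : (sizeMM K n : ℝ) ≤ X * (n : ℝ) ^ 2 * Y := by
  have hn0 : (0 : ℝ) < n := by exact_mod_cast hn
  unfold E at h
  have h1 : (sizeMM K n : ℝ) / (n : ℝ) ^ 2 ≤ X * Y := by linarith
  rw [div_le_iff₀ (by positivity)] at h1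
  linarith

/-- One step: from size `n` to sizes at most `n ^ q`. -/
theorem one_step (D : ℕ) : ∃ q x₀ : ℝ, 0 < q ∧ q < 1 ∧ 1 ≤ x₀ ∧
    ∀ (K : Type) [Field K] (G : ℝ → ℝ), (∀ x, 1 ≤ G x) → Monotone G →
    (∀ x : ℕ, 2 ≤ x → ∃ k : ℕ, x ≤ k ∧ k ≤ x ^ D ∧ (mulMM K k : ℝ) ≤ G k * (k : ℝ) ^ 2) →
    ∀ n : ℕ, 1 ≤ n → x₀ < Real.log n → ∀ X : ℝ,
    (∀ a : ℕ, 1 ≤ a → Real.log a ≤ q * Real.log n → E K a ≤ X) →
      E K n ≤ 48 * G n * X := by
  set C : ℕ := max D 1 with hCdef
  have hC1 : 1 ≤ C := le_max_right _ _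
  have hC0 : (1 : ℝ) ≤ C := by exact_mod_cast hC1
  have hinv : 1 / (8 * (C : ℝ)) ≤ 1 / 8 := by
    apply one_div_le_one_div_of_le (by norm_num)
    linarith
  have hinv0 : 0 < 1 / (8 * (C : ℝ)) := by positivity
  refine ⟨1 - 1 / (8 * C), 12 * C, by linarith, by linarith, by linarith, ?_⟩
  intro K _ G hG hmono hD n hn hx0n X hX
  set q : ℝ := 1 - 1 / (8 * C) with hq
  have hn0 : (0 : ℝ) < n := by exact_mod_cast hn
  set x : ℝ := Real.log n with hx
  have hx3 : 12 * (C : ℝ) ≤ x := hx0n.le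
  have hx0 : 0 < x := by linarith
  have hlog2 : Real.log 2 ≤ 1 := by
    have := Real.log_two_lt_d9
    linarith
  set y : ℝ := Real.exp (x / (4 * C)) with hy
  have hy1 : 1 < y := by
    rw [hy]
    apply Real.one_lt_exp_iff.2
    positivity
  have hceil : 2 ≤ ⌈y⌉₊ := by
    have : (1 : ℕ) < ⌈y⌉₊ := by
      rw [Nat.lt_ceil]
      exact_mod_cast hy1
    omega
  obtain ⟨k, hk1, hk2', hPk⟩ := hD ⌈y⌉₊ hceil
  have hk2 : k ≤ ⌈y⌉₊ ^ C := hk2'.trans (Nat.pow_le_pow_right (by omega) (le_max_left _ _))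
  have hyk : y ≤ k := (Nat.le_ceil y).trans (by exact_mod_cast hk1)
  have hk0 : (0 : ℝ) < k := by linarith
  have hkpos : 1 ≤ k := by exact_mod_cast (Nat.pos_of_ne_zero (by
    rintro rfl
    simp at hk0))
  have hlk1 : x / (4 * C) ≤ Real.log k := by
    rw [Real.le_log_iff_exp_le hk0]
    exact hyk
  have hlk2 : Real.log k ≤ x / 3 := by
    have h1 : (k : ℝ) ≤ (2 * y) ^ C := by
      calc (k : ℝ) ≤ ((⌈y⌉₊ : ℕ) : ℝ) ^ C := by exact_mod_cast hk2
        _ ≤ (2 * y) ^ C := by
          apply pow_le_pow_left₀ (by positivity)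
          have := (Nat.ceil_lt_add_one (by linarith : 0 ≤ y)).le
          linarith
    have h2 : Real.log k ≤ C * (Real.log 2 + x / (4 * C)) := by
      calc Real.log k ≤ Real.log ((2 * y) ^ C) := Real.log_le_log hk0 h1
        _ = C * (Real.log 2 + x / (4 * C)) := by
          rw [Real.log_pow, Real.log_mul (by norm_num) (by positivity), hy, Real.log_exp]
    have h3 : (C : ℝ) * (Real.log 2 + x / (4 * C)) = C * Real.log 2 + x / 4 := by
      field_simp
    rw [h3] at h2
    have h4 : (C : ℝ) * Real.log 2 ≤ C * 1 := mul_le_mul_of_nonneg_left hlog2 (by linarith)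
    linarith
  have hlk0 : 0 ≤ Real.log k := le_trans (by positivity) hlk1
  have hk2n : (k : ℝ) ^ 2 ≤ n := by
    have h1 : Real.log ((k : ℝ) ^ 2) ≤ Real.log n := by
      rw [Real.log_pow]
      push_cast
      linarith
    exact (Real.log_le_log_iff (by positivity) hn0).1 h1
  have hk2n' : k ^ 2 ≤ n := by exact_mod_cast hk2n
  have hkn : k ≤ n := (Nat.le_self_pow (by norm_num) k).trans hk2n'
  have hk2pos : 0 < k ^ 2 := by positivity
  obtain ⟨t, ht1, ht2⟩ : ∃ t : ℕ, n ≤ k ^ 2 * t ∧ k ^ 2 * t ≤ n + k ^ 2 := by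
    refine ⟨(n + k ^ 2 - 1) / k ^ 2, ?_, ?_⟩
    · have h1 := Nat.div_add_mod (n + k ^ 2 - 1) (k ^ 2)
      have h2 := Nat.mod_lt (n + k ^ 2 - 1) hk2pos
      omega
    · have h1 := Nat.div_mul_le_self (n + k ^ 2 - 1) (k ^ 2)
      rw [mul_comm] at h1
      omega
  have htpos : 1 ≤ t := by
    rcases Nat.eq_zero_or_pos t with h | h
    · rw [h, mul_zero] at ht1
      omega
    · exact h
  have ht0 : (0 : ℝ) < t := by exact_mod_cast htpos
  have hkt : (k : ℝ) * t ≤ 2 * n / k := by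
    rw [le_div_iff₀ hk0]
    have h1 : (k : ℝ) ^ 2 * t ≤ n + (k : ℝ) ^ 2 := by exact_mod_cast ht2
    nlinarith
  have hlkt : Real.log ((k : ℝ) * t) ≤ q * x := by
    calc Real.log ((k : ℝ) * t) ≤ Real.log (2 * n / k) :=
          Real.log_le_log (by positivity) hkt
      _ = Real.log 2 + x - Real.log k := by
        rw [Real.log_div (by positivity) hk0.ne', Real.log_mul (by norm_num) hn0.ne']
      _ ≤ q * x := by
        have h1 : x / (4 * C) = 2 * (1 / (8 * C) * x) := by
          field_simp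
          ring
        have h2 : (1 : ℝ) ≤ 1 / (8 * C) * x := by
          rw [one_div_mul_eq_div, le_div_iff₀ (by positivity)]
          linarith
        rw [hq]
        linarith
  have hlk2q : Real.log ((k : ℝ) ^ 2) ≤ q * x := by
    rw [Real.log_pow]
    push_cast
    have : (7 / 8 : ℝ) * x ≤ q * x := mul_le_mul_of_nonneg_right (by linarith) hx0.le
    linarith
  have hX1 : E K (k * t) ≤ X := hX _ (Nat.mul_pos hkpos htpos) (by push_cast; exact hlkt)
  have hX2 : E K (k ^ 2) ≤ X := hX _ hk2pos (by push_cast; exact hlk2q)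
  set c : ℕ := ⌈2 * G k⌉₊ with hc
  have hG1 := hG k
  have hc1 : 1 ≤ c := Nat.one_le_ceil_iff.2 (by linarith)
  have hc2 : (c : ℝ) ≤ 3 * G k := by
    have := (Nat.ceil_lt_add_one (by linarith : 0 ≤ 2 * G k)).le
    rw [← hc] at this
    linarith
  have hrk : trank K k k k ≤ c * k ^ 2 := by
    have h1 : (trank K k k k : ℝ) ≤ 2 * mulMM K k := by exact_mod_cast trank_le_mulMM K k
    have h3 : 2 * G k ≤ c := Nat.le_ceil _
    have h4 : (trank K k k k : ℝ) ≤ c * k ^ 2 := by
      calc (trank K k k k : ℝ) ≤ 2 * (G k * k ^ 2) := by linarith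
        _ = (2 * G k) * k ^ 2 := by ring
        _ ≤ c * k ^ 2 := mul_le_mul_of_nonneg_right h3 (by positivity)
    exact_mod_cast h4
  have hmain := E_step K hkpos htpos hn hc1 hrk ht1 (by omega) hX1 hX2
  have hXpos : 0 ≤ X := by linarith [one_le_E K (k ^ 2)]
  have hGn : G k ≤ G n := hmono (by exact_mod_cast hkn)
  calc E K n ≤ 16 * c * X := hmain
    _ ≤ 16 * (3 * G n) * X := by
      apply mul_le_mul_of_nonneg_right _ hXpos
      linarith
    _ = 48 * G n * X := by ring

/-- The bound scale by scale. -/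
theorem scale_by_scale (D : ℕ) : ∃ B q : ℝ, 1 ≤ B ∧ 0 < q ∧ q < 1 ∧
    ∀ (K : Type) [Field K] (G : ℝ → ℝ), (∀ x, 1 ≤ G x) → Monotone G →
    (∀ x : ℕ, 2 ≤ x → ∃ k : ℕ, x ≤ k ∧ k ≤ x ^ D ∧ (mulMM K k : ℝ) ≤ G k * (k : ℝ) ^ 2) →
    ∀ n : ℕ, 2 ≤ n → (sizeMM K n : ℝ) ≤ B * (n : ℝ) ^ 2 *
      ∏ i ∈ range ⌈B * Real.log (Real.log n)⌉₊, (B * G ((n : ℝ) ^ (q ^ i))) := by
  obtain ⟨q, x₀, hq0, hq1, hx₀, hstep⟩ := one_step D
  obtain ⟨N₀, hN₀⟩ := exists_nat_ge (Real.exp x₀)
  set B : ℝ := max (max (1 + 2 * N₀) 48) (1 / (-Real.log q)) with hB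
  have hlq : 0 < -Real.log q := by
    have := Real.log_neg hq0 hq1
    linarith
  have hB1 : 1 + 2 * (N₀ : ℝ) ≤ B := (le_max_left _ _).trans (le_max_left _ _)
  have hB48 : 48 ≤ B := (le_max_right _ _).trans (le_max_left _ _)
  have hBq : 1 / (-Real.log q) ≤ B := le_max_right _ _
  refine ⟨B, q, by linarith, hq0, hq1, ?_⟩
  intro K _ G hG hmono hD
  have hbase : ∀ n : ℕ, 1 ≤ n → Real.log n ≤ x₀ → E K n ≤ B := by
    intro n hn hl
    have hn0 : (0 : ℝ) < n := by exact_mod_cast hn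
    have h1 : (n : ℝ) ≤ N₀ := by
      exact ((Real.log_le_iff_le_exp hn0).1 hl).trans hN₀
    linarith [E_le K n]
  have hfac : ∀ z : ℝ, 1 ≤ B * G z := fun z => by
    calc (1 : ℝ) = 1 * 1 := (one_mul 1).symm
      _ ≤ B * G z := mul_le_mul (by linarith) (hG z) (by norm_num) (by linarith)
  have hprod : ∀ (m : ℕ) (z : ℝ), 1 ≤ ∏ i ∈ range m, (B * G (z ^ (q ^ i))) := by
    intro m z
    induction m with
    | zero => simp
    | succ m ih =>
      rw [Finset.prod_range_succ]
      calc (1 : ℝ) = 1 * 1 := (one_mul 1).symm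
        _ ≤ _ := mul_le_mul ih (hfac _) (by norm_num) (by linarith)
  have key : ∀ (m n : ℕ), 1 ≤ n → q ^ m * Real.log n ≤ x₀ →
      E K n ≤ B * ∏ i ∈ range m, (B * G ((n : ℝ) ^ (q ^ i))) := by
    intro m
    induction m with
    | zero =>
      intro n hn hl
      rw [pow_zero, one_mul] at hl
      simpa using hbase n hn hl
    | succ m ih =>
      intro n hn hl
      have hn0 : (0 : ℝ) < n := by exact_mod_cast hn
      have hn1 : (1 : ℝ) ≤ n := by exact_mod_cast hn
      by_cases hcase : Real.log n ≤ x₀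
      · calc E K n ≤ B := hbase n hn hcase
          _ = B * 1 := (mul_one B).symm
          _ ≤ _ := mul_le_mul_of_nonneg_left (hprod _ _) (by linarith)
      · push Not at hcase
        have h1 := hstep K G hG hmono hD n hn hcase
          (B * ∏ i ∈ range m, (B * G ((n : ℝ) ^ (q ^ (i + 1))))) ?_
        · rw [Finset.prod_range_succ']
          simp only [pow_zero, Real.rpow_one]
          have h2 : 0 ≤ B * ∏ i ∈ range m, (B * G ((n : ℝ) ^ (q ^ (i + 1)))) := by
            refine mul_nonneg (by linarith) (Finset.prod_nonneg fun i _ => ?_)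
            linarith [hfac ((n : ℝ) ^ (q ^ (i + 1)))]
          calc E K n ≤ 48 * G n * (B * ∏ i ∈ range m, (B * G ((n : ℝ) ^ (q ^ (i + 1))))) := h1
            _ ≤ B * G n * (B * ∏ i ∈ range m, (B * G ((n : ℝ) ^ (q ^ (i + 1))))) := by
              refine mul_le_mul_of_nonneg_right ?_ h2
              exact mul_le_mul_of_nonneg_right hB48 (by linarith [hG n])
            _ = _ := by ring
        · intro a ha hla
          have ha0 : (0 : ℝ) < a := by exact_mod_cast ha
          have ha1 : (1 : ℝ) ≤ a := by exact_mod_cast ha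
          have h3 : q ^ m * Real.log a ≤ x₀ := by
            calc q ^ m * Real.log a ≤ q ^ m * (q * Real.log n) :=
                  mul_le_mul_of_nonneg_left hla (by positivity)
              _ = q ^ (m + 1) * Real.log n := by ring
              _ ≤ x₀ := hl
          refine (ih a ha h3).trans (mul_le_mul_of_nonneg_left ?_ (by linarith))
          refine Finset.prod_le_prod (fun i _ => by linarith [hfac ((a : ℝ) ^ (q ^ i))])
            fun i _ => ?_
          refine mul_le_mul_of_nonneg_left (hmono ?_) (by linarith)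
          have h4 : (a : ℝ) ≤ (n : ℝ) ^ q := by
            rw [← Real.log_le_log_iff ha0 (Real.rpow_pos_of_pos hn0 _), Real.log_rpow hn0]
            exact hla
          calc (a : ℝ) ^ (q ^ i) ≤ ((n : ℝ) ^ q) ^ (q ^ i) :=
                Real.rpow_le_rpow ha0.le h4 (by positivity)
            _ = (n : ℝ) ^ (q ^ (i + 1)) := by
              rw [← Real.rpow_mul hn0.le, pow_succ, mul_comm]
  intro n hn
  have hn0 : (0 : ℝ) < n := by exact_mod_cast (by omega : 0 < n)
  have hl0 : 0 < Real.log n := Real.log_pos (by exact_mod_cast (by omega : 1 < n))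
  set m : ℕ := ⌈B * Real.log (Real.log n)⌉₊ with hm
  have h1 : q ^ m * Real.log n ≤ x₀ := by
    refine le_trans ?_ hx₀
    by_cases hc : Real.log n ≤ 1
    · calc q ^ m * Real.log n ≤ 1 * 1 :=
            mul_le_mul (pow_le_one₀ hq0.le hq1.le) hc hl0.le (by norm_num)
        _ = 1 := one_mul 1
    · push Not at hc
      have hll : 0 < Real.log (Real.log n) := Real.log_pos hc
      have h2 : B * Real.log (Real.log n) ≤ m := Nat.le_ceil _
      have h3 : Real.log (Real.log n) ≤ m * (-Real.log q) := by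
        have h4 : Real.log (Real.log n) ≤ (B * Real.log (Real.log n)) * (-Real.log q) := by
          have h5 : 1 ≤ B * (-Real.log q) := by
            rwa [div_le_iff₀ hlq] at hBq
          nlinarith
        exact h4.trans (mul_le_mul_of_nonneg_right h2 hlq.le)
      have h6 : Real.log (q ^ m * Real.log n) ≤ 0 := by
        rw [Real.log_mul (by positivity) hl0.ne', Real.log_pow]
        linarith
      have h7 : 0 < q ^ m * Real.log n := by positivity
      have := (Real.log_nonpos_iff h7.le).1 h6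
      exact this
  have h2 := size_le_of_E' K (by omega) (key m n (by omega) h1)
  linarith [h2]

end Pool.Agent.H703.NL
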