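import Pool.Agent.H703.NL.Engine

set_option autoImplicit false
set_option linter.unusedSectionVars false

/-!
# The growth rates of the number of multiplications and of the size of circuits
-/

namespace Pool.Agent.H703.NL

open Finset Pool.Agent.W956.KF

section logs

theorem log_two_pos : 0 < Real.log 2 := Real.log_pos (by norm_num)

theorem log_two_le : Real.log 2 ≤ 1 := by
  have := Real.log_two_lt_d9
  linarith

theorem log_two_ge : 1 / 2 ≤ Real.log 2 := by
  have := Real.log_two_gt_d9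
  linarith

theorem log_le_logb {x : ℝ} (hx : 1 ≤ x) : Real.log x ≤ Real.logb 2 x := by
  unfold Real.logb
  rw [le_div_iff₀ log_two_pos]
  have h := Real.log_nonneg hx
  nlinarith [log_two_le]

theorem logb_le {x : ℝ} (hx : 1 ≤ x) : Real.logb 2 x ≤ 2 * Real.log x := by
  unfold Real.logb
  rw [div_le_iff₀ log_two_pos]
  have h := Real.log_nonneg hx
  nlinarith [log_two_ge]

theorem one_le_logb {n : ℕ} (hn : 2 ≤ n) : 1 ≤ Real.logb 2 n := by
  rw [Real.le_logb_iff_rpow_le (by norm_num) (by positivity)]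
  simpa using hn

theorem llog_nonneg (n : ℕ) : 0 ≤ Real.logb 2 (Real.logb 2 n) := by
  rcases Nat.lt_or_ge n 2 with h | h
  · have : n = 0 ∨ n = 1 := by omega
    rcases this with rfl | rfl <;> simp
  · exact Real.logb_nonneg (by norm_num) (one_le_logb h)

theorem max_log_le {n : ℕ} (hn : 2 ≤ n) : max (Real.log n) 1 ≤ Real.logb 2 n :=
  max_le (log_le_logb (by exact_mod_cast (by omega : 1 ≤ n))) (one_le_logb hn)

theorem log_max_log_le {n : ℕ} (hn : 2 ≤ n) :
    Real.log (max (Real.log n) 1) ≤ Real.logb 2 (Real.logb 2 n) :=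
  (Real.log_le_log (by positivity) (max_log_le hn)).trans (log_le_logb (one_le_logb hn))

/-- the iterated logarithm of `k` in terms of an upper bound for `log k` -/
theorem llog_le {k : ℕ} {x : ℝ} (hx : Real.log k ≤ x) (hu : 1 ≤ Real.log x) :
    Real.logb 2 (Real.logb 2 k) ≤ 4 * Real.log x := by
  rcases Nat.lt_or_ge k 2 with h | h
  · have : k = 0 ∨ k = 1 := by omega
    rcases this with rfl | rfl <;> simp <;> linarith
  · have hx0 : 0 < x := by
      by_contra hcon
      have : 0 < Real.log k := Real.log_pos (by exact_mod_cast h)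
      linarith
    have h1 := logb_le (one_le_logb h)
    have h2 : Real.logb 2 k ≤ 2 * x := (logb_le (by exact_mod_cast (by omega : 1 ≤ k))).trans
      (by linarith)
    have h3 : Real.log (Real.logb 2 k) ≤ Real.log (2 * x) :=
      Real.log_le_log (by linarith [one_le_logb h]) h2
    rw [Real.log_mul (by norm_num) hx0.ne'] at h3
    linarith [log_two_le]

end logs

section

variable (K : Type) [Field K]

theorem size_le_of_E {n : ℕ} (hn : 1 ≤ n) {X : ℝ} (h : E K n ≤ X) :
    (sizeMM K n : ℝ) ≤ X * (n : ℝ) ^ 2 := by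
  have hn0 : (0 : ℝ) < n := by exact_mod_cast hn
  unfold E at h
  have h1 : (sizeMM K n : ℝ) / (n : ℝ) ^ 2 ≤ X := by linarith
  rwa [div_le_iff₀ (by positivity)] at h1

/-- polynomials in the iterated logarithm -/
theorem scale_llog (a c : ℝ) (ha : 0 ≤ a)
    (hd : PolyDense fun k => (mulMM K k : ℝ) ≤
      c * (k : ℝ) ^ 2 * Real.exp (c * Real.logb 2 (Real.logb 2 k) ^ a)) :
    ∃ C : ℝ, ∀ n : ℕ, 2 ≤ n → (sizeMM K n : ℝ) ≤
      C * (n : ℝ) ^ 2 * Real.exp (C * Real.logb 2 (Real.logb 2 n) ^ (a + 1)) := by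
  obtain ⟨q, hq0, hq1, heng⟩ := engine K hd
  set b : ℝ := max c 1 with hb
  have hb1 : 1 ≤ b := le_max_right _ _
  have hcb : c ≤ b := le_max_left _ _
  set G : ℕ → ℝ := fun k => b * Real.exp (b * Real.logb 2 (Real.logb 2 k) ^ a) with hG
  set l : ℝ := -Real.log q with hl
  have hl0 : 0 < l := by
    have := Real.log_neg hq0 hq1
    linarith
  set A : ℝ := Real.log 48 + Real.log b with hA
  have hA0 : 0 ≤ A := add_nonneg (Real.log_nonneg (by norm_num)) (Real.log_nonneg hb1)
  set β : ℝ := (A + b * 4 ^ a) / l with hβ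
  have h4a : (0 : ℝ) < 4 ^ a := Real.rpow_pos_of_pos (by norm_num) a
  have hβ0 : 0 ≤ β := by positivity
  have heng' := heng G
  suffices hsuf : ∃ M : ℝ, ∀ n : ℕ, 1 ≤ n → E K n ≤
      Real.exp (M + (fun x => β * Real.log (max x 1) ^ (a + 1)) (Real.log n)) by
    obtain ⟨M, hM⟩ := hsuf
    refine ⟨max (Real.exp M) β, fun n hn => ?_⟩
    have h1 := size_le_of_E K (by omega) (hM n (by omega))
    have hn0 : (0 : ℝ) < n := by exact_mod_cast (by omega : 0 < n)
    have hlm : 0 ≤ Real.log (max (Real.log n) 1) := Real.log_nonneg (le_max_right _ _)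
    have h2 : Real.log (max (Real.log n) 1) ^ (a + 1) ≤
        Real.logb 2 (Real.logb 2 n) ^ (a + 1) :=
      Real.rpow_le_rpow hlm (log_max_log_le hn) (by linarith)
    have h3 : (0 : ℝ) ≤ Real.logb 2 (Real.logb 2 n) ^ (a + 1) :=
      Real.rpow_nonneg (llog_nonneg n) _
    calc (sizeMM K n : ℝ) ≤ Real.exp (M + β * Real.log (max (Real.log n) 1) ^ (a + 1)) *
          (n : ℝ) ^ 2 := h1
      _ = Real.exp M * (n : ℝ) ^ 2 * Real.exp (β * Real.log (max (Real.log n) 1) ^ (a + 1)) := by
        rw [Real.exp_add]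
        ring
      _ ≤ max (Real.exp M) β * (n : ℝ) ^ 2 *
          Real.exp (max (Real.exp M) β * Real.logb 2 (Real.logb 2 n) ^ (a + 1)) := by
        have h4 : Real.exp M ≤ max (Real.exp M) β := le_max_left _ _
        have h5 : β * Real.log (max (Real.log n) 1) ^ (a + 1) ≤
            max (Real.exp M) β * Real.logb 2 (Real.logb 2 n) ^ (a + 1) :=
          mul_le_mul (le_max_right _ _) h2 (Real.rpow_nonneg hlm _)
            (hβ0.trans (le_max_right _ _))
        have h6 := Real.exp_le_exp.2 h5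
        have h7 : 0 < Real.exp M := Real.exp_pos _
        gcongr
  refine heng' ?_ ?_ (fun x => β * Real.log (max x 1) ^ (a + 1)) ?_ (Real.exp (max 1 l)) ?_
  · intro k
    have h1 : 0 ≤ b * Real.logb 2 (Real.logb 2 k) ^ a :=
      mul_nonneg (by linarith) (Real.rpow_nonneg (llog_nonneg k) _)
    have h2 : 1 ≤ Real.exp (b * Real.logb 2 (Real.logb 2 k) ^ a) := Real.one_le_exp h1
    calc (1 : ℝ) = 1 * 1 := (one_mul 1).symm
      _ ≤ b * Real.exp (b * Real.logb 2 (Real.logb 2 k) ^ a) :=
        mul_le_mul hb1 h2 (by norm_num) (by linarith)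
  · intro k hk
    have h0 : 0 ≤ Real.logb 2 (Real.logb 2 (k : ℝ)) ^ a := Real.rpow_nonneg (llog_nonneg k) _
    have h1 : Real.exp (c * Real.logb 2 (Real.logb 2 k) ^ a) ≤
        Real.exp (b * Real.logb 2 (Real.logb 2 k) ^ a) :=
      Real.exp_le_exp.2 (mul_le_mul_of_nonneg_right hcb h0)
    calc (mulMM K k : ℝ) ≤ c * (k : ℝ) ^ 2 * Real.exp (c * Real.logb 2 (Real.logb 2 k) ^ a) := hk
      _ ≤ b * (k : ℝ) ^ 2 * Real.exp (c * Real.logb 2 (Real.logb 2 k) ^ a) := by
        have : c * (k : ℝ) ^ 2 ≤ b * (k : ℝ) ^ 2 := mul_le_mul_of_nonneg_right hcb (by positivity)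
        exact mul_le_mul_of_nonneg_right this (Real.exp_pos _).le
      _ ≤ b * (k : ℝ) ^ 2 * Real.exp (b * Real.logb 2 (Real.logb 2 k) ^ a) := by
        exact mul_le_mul_of_nonneg_left h1 (by positivity)
      _ = G k * (k : ℝ) ^ 2 := by
        rw [hG]
        ring
  · intro x y hx hxy
    have h1 : Real.log (max x 1) ≤ Real.log (max y 1) :=
      Real.log_le_log (by positivity) (max_le_max hxy le_rfl)
    have h2 : 0 ≤ Real.log (max x 1) := Real.log_nonneg (le_max_right _ _)
    exact mul_le_mul_of_nonneg_left (Real.rpow_le_rpow h2 h1 (by linarith)) hβ0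
  · intro x hx k hk hlk
    have hx0 : 0 < x := lt_of_lt_of_le (Real.exp_pos _) hx
    have hu : max 1 l ≤ Real.log x := by
      rw [Real.le_log_iff_exp_le hx0]
      exact hx
    set u : ℝ := Real.log x with hu'
    have hu1 : 1 ≤ u := (le_max_left _ _).trans hu
    have hul : l ≤ u := (le_max_right _ _).trans hu
    have hx1 : 1 ≤ x := by
      have : 0 ≤ Real.log x := by linarith
      exact (Real.log_nonneg_iff hx0).1 this
    have e1 : Real.log (max x 1) = u := by rw [max_eq_left hx1]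
    have hqx : Real.log (q * x) = u - l := by
      rw [Real.log_mul hq0.ne' hx0.ne', hl]
      ring
    have hqx1 : 1 ≤ q * x := by
      have : 0 ≤ Real.log (q * x) := by rw [hqx]; linarith
      exact (Real.log_nonneg_iff (by positivity)).1 this
    have e2 : Real.log (max (q * x) 1) = u - l := by rw [max_eq_left hqx1, hqx]
    have hG1 : Real.log (G k) = Real.log b + b * Real.logb 2 (Real.logb 2 k) ^ a := by
      rw [hG]
      simp only
      rw [Real.log_mul (by linarith) (Real.exp_pos _).ne', Real.log_exp]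
    have hll : Real.logb 2 (Real.logb 2 k) ^ a ≤ 4 ^ a * u ^ a := by
      rw [← Real.mul_rpow (by norm_num) (by linarith)]
      exact Real.rpow_le_rpow (llog_nonneg k) (llog_le hlk hu1) ha
    have hua : 1 ≤ u ^ a := Real.one_le_rpow hu1 ha
    have hdiff : β * (l * u ^ a) ≤ β * u ^ (a + 1) - β * (u - l) ^ (a + 1) := by
      rw [← mul_sub]
      refine mul_le_mul_of_nonneg_left ?_ hβ0
      have h1 : (u - l) ^ (a + 1) ≤ (u - l) * u ^ a := by
        rcases eq_or_lt_of_le (by linarith : 0 ≤ u - l) with h | h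
        · rw [← h, Real.zero_rpow (by linarith), zero_mul]
        · rw [Real.rpow_add_one h.ne', mul_comm]
          refine mul_le_mul_of_nonneg_left ?_ h.le
          exact Real.rpow_le_rpow h.le (by linarith) ha
      have h2 : u ^ (a + 1) = u * u ^ a := by
        rw [Real.rpow_add_one (by linarith), mul_comm]
      rw [h2]
      linarith
    have hβl : β * (l * u ^ a) = (A + b * 4 ^ a) * u ^ a := by
      rw [hβ]
      field_simp
    rw [hG1]
    simp only [e1, e2]
    have h5 : b * Real.logb 2 (Real.logb 2 k) ^ a ≤ b * (4 ^ a * u ^ a) :=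
      mul_le_mul_of_nonneg_left hll (by linarith)
    have h6 : A ≤ A * u ^ a := le_mul_of_one_le_right hA0 hua
    have h7 : (A + b * 4 ^ a) * u ^ a = A * u ^ a + b * (4 ^ a * u ^ a) := by ring
    linarith

/-- stretched exponentials in the logarithm -/
theorem scale_stretched (θ c : ℝ) (hθ : 0 < θ)
    (hd : PolyDense fun k => (mulMM K k : ℝ) ≤
      c * (k : ℝ) ^ 2 * Real.exp (c * Real.log k ^ θ)) :
    ∃ C : ℝ, ∀ n : ℕ, 1 ≤ n → (sizeMM K n : ℝ) ≤
      C * (n : ℝ) ^ 2 * Real.exp (C * Real.log n ^ θ) := by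
  obtain ⟨q, hq0, hq1, heng⟩ := engine K hd
  set b : ℝ := max c 1 with hb
  have hb1 : 1 ≤ b := le_max_right _ _
  have hcb : c ≤ b := le_max_left _ _
  set G : ℕ → ℝ := fun k => b * Real.exp (b * Real.log k ^ θ) with hG
  have hlog : ∀ k : ℕ, 0 ≤ Real.log (k : ℝ) := fun k => Real.log_natCast_nonneg k
  set l : ℝ := 1 - q ^ θ with hl
  have hl0 : 0 < l := by
    have := Real.rpow_lt_one hq0.le hq1 hθ
    linarith
  set A : ℝ := Real.log 48 + Real.log b with hA
  have hA0 : 0 ≤ A := add_nonneg (Real.log_nonneg (by norm_num)) (Real.log_nonneg hb1)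
  set β : ℝ := (A + b) / l with hβ
  have hβ0 : 0 ≤ β := by positivity
  have heng' := heng G
  suffices hsuf : ∃ M : ℝ, ∀ n : ℕ, 1 ≤ n → E K n ≤
      Real.exp (M + (fun x => β * x ^ θ) (Real.log n)) by
    obtain ⟨M, hM⟩ := hsuf
    refine ⟨max (Real.exp M) β, fun n hn => ?_⟩
    have h1 := size_le_of_E K hn (hM n hn)
    have h3 : (0 : ℝ) ≤ Real.log n ^ θ := Real.rpow_nonneg (hlog n) _
    calc (sizeMM K n : ℝ) ≤ Real.exp (M + β * Real.log n ^ θ) * (n : ℝ) ^ 2 := h1
      _ = Real.exp M * (n : ℝ) ^ 2 * Real.exp (β * Real.log n ^ θ) := by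
        rw [Real.exp_add]
        ring
      _ ≤ max (Real.exp M) β * (n : ℝ) ^ 2 *
          Real.exp (max (Real.exp M) β * Real.log n ^ θ) := by
        have h4 : Real.exp M ≤ max (Real.exp M) β := le_max_left _ _
        have h5 : β * Real.log n ^ θ ≤ max (Real.exp M) β * Real.log n ^ θ :=
          mul_le_mul_of_nonneg_right (le_max_right _ _) h3
        have h6 := Real.exp_le_exp.2 h5
        have h7 : 0 < Real.exp M := Real.exp_pos _
        gcongr
  refine heng' ?_ ?_ (fun x => β * x ^ θ) ?_ 1 ?_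
  · intro k
    have h1 : 0 ≤ b * Real.log k ^ θ := mul_nonneg (by linarith) (Real.rpow_nonneg (hlog k) _)
    have h2 : 1 ≤ Real.exp (b * Real.log k ^ θ) := Real.one_le_exp h1
    calc (1 : ℝ) = 1 * 1 := (one_mul 1).symm
      _ ≤ b * Real.exp (b * Real.log k ^ θ) :=
        mul_le_mul hb1 h2 (by norm_num) (by linarith)
  · intro k hk
    have h0 : 0 ≤ Real.log (k : ℝ) ^ θ := Real.rpow_nonneg (hlog k) _
    have h1 : Real.exp (c * Real.log k ^ θ) ≤ Real.exp (b * Real.log k ^ θ) :=
      Real.exp_le_exp.2 (mul_le_mul_of_nonneg_right hcb h0)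
    calc (mulMM K k : ℝ) ≤ c * (k : ℝ) ^ 2 * Real.exp (c * Real.log k ^ θ) := hk
      _ ≤ b * (k : ℝ) ^ 2 * Real.exp (c * Real.log k ^ θ) := by
        have : c * (k : ℝ) ^ 2 ≤ b * (k : ℝ) ^ 2 := mul_le_mul_of_nonneg_right hcb (by positivity)
        exact mul_le_mul_of_nonneg_right this (Real.exp_pos _).le
      _ ≤ b * (k : ℝ) ^ 2 * Real.exp (b * Real.log k ^ θ) := by
        exact mul_le_mul_of_nonneg_left h1 (by positivity)
      _ = G k * (k : ℝ) ^ 2 := by
        rw [hG]
        ring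
  · intro x y hx hxy
    exact mul_le_mul_of_nonneg_left (Real.rpow_le_rpow hx hxy hθ.le) hβ0
  · intro x hx k hk hlk
    have hG1 : Real.log (G k) = Real.log b + b * Real.log k ^ θ := by
      rw [hG]
      simp only
      rw [Real.log_mul (by linarith) (Real.exp_pos _).ne', Real.log_exp]
    have hkx : Real.log k ^ θ ≤ x ^ θ := Real.rpow_le_rpow (hlog k) hlk hθ.le
    have hxθ : 1 ≤ x ^ θ := Real.one_le_rpow hx hθ.le
    rw [hG1]
    rw [Real.mul_rpow hq0.le (by linarith)]
    have hβl : β * l = A + b := by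
      rw [hβ]
      field_simp
    have h5 : b * Real.log k ^ θ ≤ b * x ^ θ := mul_le_mul_of_nonneg_left hkx (by linarith)
    have h6 : A ≤ A * x ^ θ := le_mul_of_one_le_right hA0 hxθ
    have h7 : β * x ^ θ - β * (q ^ θ * x ^ θ) = (A + b) * x ^ θ := by
      rw [← hβl, hl]
      ring
    linarith

end

end Pool.Agent.H703.NL
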