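import Pool.Agent.H703.NL.Step
import Pool.Graph.R_seed8.W956.KF.Sizes
import Pool.Graph.R_seed8.W956.KF.Growth

set_option autoImplicit false
set_option linter.unusedSectionVars false

/-!
# The recursion for circuit sizes
-/

namespace Pool.Agent.H703.NL

open Finset Pool.Agent.W956.KF Pool.Agent.H522R2 Pool.Agent.H522R2.Circuit Pool.Agent.H88R3.MM

variable (K : Type) [Field K]

/-- The least number of nonscalar multiplications of a circuit over `K` which computes the `m ^ 2`
entries of the product of two generic `m × m` matrices. -/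
noncomputable def mulMM (m : ℕ) : ℕ :=
  sInf {s | ∃ C : Circuit K ((Fin m × Fin m) ⊕ (Fin m × Fin m)),
    ComputesMM C ∧ C.nonscalarCount = s}

theorem costMM_sizeMM (m : ℕ) : CostMM K (Fin m) (sizeMM K m) := by
  intro R _ _ T hT A B hA hB
  let φ : MvPolynomial (Vars m) K →ₐ[K] R :=
    MvPolynomial.aeval (Sum.elim (fun x : Fin m × Fin m => A x.1 x.2) (fun x => B x.1 x.2))
  refine ((cost_MM_sizeMM K m).map φ.toRingHom).mono ?_ ?_ le_rfl
  · rintro _ ⟨_, ⟨v, rfl⟩ | ⟨c, rfl⟩, rfl⟩
    · rcases v with v | v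
      · simpa [φ] using hA v.1 v.2
      · simpa [φ] using hB v.1 v.2
    · simpa [φ] using hT c
  · rintro _ ⟨i, j, rfl⟩
    refine ⟨_, ⟨(i, j), rfl⟩, ?_⟩
    simp [entryMM, φ, Matrix.mul_apply]

theorem sizeMM_le_of_costMM {m s : ℕ} (h : CostMM K (Fin m) s) : sizeMM K m ≤ s :=
  sizeMM_le (cost_outMM h)

theorem sizeMM_mono {m n : ℕ} (h : m ≤ n) : sizeMM K m ≤ sizeMM K n := by
  refine sizeMM_le_of_costMM K (CostMM.pad (κ := Fin (n - m)) ?_)
  refine (costMM_sizeMM K n).reindex (Fintype.equivOfCardEq ?_)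
  simp only [Fintype.card_sum, Fintype.card_fin]
  omega

/-- The recursion. -/
theorem sizeMM_step {k c t : ℕ} (hr : trank K k k k ≤ c * k ^ 2) :
    sizeMM K (k ^ 2 * t) ≤ c * k ^ 2 * sizeMM K (k * t) + 3 * (c * t ^ 2 * sizeMM K (k ^ 2)) +
      c * k ^ 2 * (k * t) ^ 2 := by
  have h1 : RankLE K k k k (c * (k * k)) :=
    (rankLE_trank K k k k).mono (hr.trans (le_of_eq (by ring)))
  have hf : CostMM K (Fin k × Fin t) (sizeMM K (k * t)) :=
    (costMM_sizeMM K (k * t)).reindex (Fintype.equivOfCardEq (by simp))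
  have hg : CostMM K (Fin k × Fin k) (sizeMM K (k ^ 2)) :=
    (costMM_sizeMM K (k ^ 2)).reindex (Fintype.equivOfCardEq (by simp [pow_two]))
  refine sizeMM_le_of_costMM K ((CostMM.step h1 hf hg).reindex (Fintype.equivOfCardEq ?_))
  simp only [Fintype.card_prod, Fintype.card_fin]
  ring

theorem exists_circuit_mulMM (m : ℕ) :
    ∃ C : Circuit K (Vars m), ComputesMM C ∧ C.nonscalarCount = mulMM K m := by
  obtain ⟨C, h, -⟩ := exists_circuit_MM K m
  exact Nat.sInf_mem (s := {s | ∃ C : Circuit K (Vars m), ComputesMM C ∧ C.nonscalarCount = s})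
    ⟨_, C, h, rfl⟩

theorem nonscalarCount_le_size {V : Type} (C : Circuit K V) : C.nonscalarCount ≤ C.size := by
  classical
  refine Nat.card_le_card_of_injective (fun g : {k : Fin C.nodes // C.IsNonscalar k} =>
    (⟨g.1, Or.inr (by obtain ⟨i, j, h, -⟩ := g.2; exact ⟨i, j, h⟩)⟩ : {k : Fin C.nodes //
    (∃ i j, C.gate k = Gate.add i j) ∨ ∃ i j, C.gate k = Gate.mul i j})) ?_
  intro a b hab
  simpa [Subtype.ext_iff] using hab

theorem mulMM_le_sizeMM (m : ℕ) : mulMM K m ≤ sizeMM K m := by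
  obtain ⟨C, h, hs⟩ := exists_circuit_MM K m
  rw [← hs]
  have h1 : C.nonscalarCount ∈ {s | ∃ C : Circuit K (Vars m), ComputesMM C ∧
    C.nonscalarCount = s} := ⟨C, h, rfl⟩
  exact le_trans (Nat.sInf_le h1) (nonscalarCount_le_size K C)

theorem trank_le_mulMM (m : ℕ) : trank K m m m ≤ 2 * mulMM K m := by
  classical
  obtain ⟨C, h, hs⟩ := exists_circuit_mulMM K m
  obtain ⟨W, hW⟩ := exists_alg C (fun i j => h i j)
  rw [← hs]
  have hcard : Fintype.card ({g : Fin C.nodes // C.IsNonscalar g} × Bool) =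
      2 * C.nonscalarCount := by
    rw [Fintype.card_prod, Fintype.card_bool, mul_comm, nonscalarCount, Nat.card_eq_fintype_card]
  let e := (Fintype.equivFinOfCardEq hcard).symm
  have hR : RankLE K m m m (2 * C.nonscalarCount) := by
    refine ⟨fun l => linA (C.poly (if (e l).2 then (inp C (e l).1.1).2 else
      (inp C (e l).1.1).1)), fun l => linB (C.poly (if (e l).2 then (inp C (e l).1.1).1 else
        (inp C (e l).1.1).2)), fun l => W (e l).1, ?_⟩
    intro i i' j j' k k'
    have h1 := hW.coeff i i' j j' k k'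
    rw [← h1]
    exact Equiv.sum_comp e (fun l => linA (C.poly (if l.2 then (inp C l.1.1).2 else
      (inp C l.1.1).1)) i j * linB (C.poly (if l.2 then (inp C l.1.1).1 else
        (inp C l.1.1).2)) j' k * W l.1 i' k')
  exact Nat.sInf_le hR

end Pool.Agent.H703.NL
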