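import Pool.Graph.R_seed8.W956.KF.MMCost

set_option autoImplicit false
set_option linter.unusedSectionVars false

/-!
# A recursion for matrix multiplication in which the linear maps of a bilinear algorithm are
# themselves applied by fast matrix multiplication
-/

namespace Pool.Agent.H703.NL

open Finset Pool.Agent.W956.KF

variable {K : Type} [Field K]

section

variable {R : Type} [CommRing R] [Algebra K R]

/-- Multiplying a tall constant matrix with a wide matrix, by square blocks. -/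
theorem cost_tall {κ : Type} [Fintype κ] {g : ℕ} (h : CostMM K κ g) (T : Set R)
    (hT : ∀ c : K, algebraMap K R c ∈ T) {α β : Type} [Fintype α] [Fintype β]
    (M : α → κ → κ → R) (X : β → κ → κ → R) (hM : ∀ a p i, M a p i ∈ T)
    (hX : ∀ b i q, X b i q ∈ T) :
    Cost T {x | ∃ a b p q, x = ∑ i, M a p i * X b i q} (Fintype.card α * Fintype.card β * g) := by
  have h1 := Cost.iUnion (T := T) (ι := α × β)
    (P := fun t => {x | ∃ p q, x = ((Matrix.of (M t.1)) * (Matrix.of (X t.2))) p q}) (s := g)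
    (fun t => h R T hT (Matrix.of (M t.1)) (Matrix.of (X t.2)) (fun i j => hM _ _ _)
      (fun i j => hX _ _ _))
  rw [Fintype.card_prod] at h1
  refine h1.mono subset_rfl ?_ le_rfl
  rintro x ⟨a, b, p, q, rfl⟩
  exact Set.mem_iUnion.2 ⟨(a, b), p, q, by rw [Matrix.mul_apply]; rfl⟩

end

/-- The identity behind Strassen's recursion. -/
theorem identity {q : ℕ} {Λ : Type} [Fintype Λ] {ι : Type} [Fintype ι]
    (U V W : Λ → Matrix (Fin q) (Fin q) K)
    (hco : ∀ (i i' : Fin q) (j j' : Fin q) (k k' : Fin q),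
      ∑ l, U l i j * V l j' k * W l i' k' = if i = i' ∧ j = j' ∧ k = k' then 1 else 0)
    {R : Type} [CommRing R] [Algebra K R] (A B : Matrix (Fin q × ι) (Fin q × ι) R)
    (i k : Fin q) (a b : ι) :
    ∑ l, algebraMap K R (W l i k) *
      ((Matrix.of fun x y => ∑ t : Fin q × Fin q, algebraMap K R (U l t.1 t.2) *
          A (t.1, x) (t.2, y) : Matrix ι ι R) *
        (Matrix.of fun x y => ∑ t : Fin q × Fin q, algebraMap K R (V l t.1 t.2) *
          B (t.1, x) (t.2, y) : Matrix ι ι R)) a b = (A * B) (i, a) (k, b) := by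
  classical
  have e1 : ∀ l, ((Matrix.of fun x y => ∑ t : Fin q × Fin q, algebraMap K R (U l t.1 t.2) *
          A (t.1, x) (t.2, y) : Matrix ι ι R) *
        (Matrix.of fun x y => ∑ t : Fin q × Fin q, algebraMap K R (V l t.1 t.2) *
          B (t.1, x) (t.2, y) : Matrix ι ι R)) a b =
      ∑ s : (Fin q × Fin q) × (Fin q × Fin q),
      algebraMap K R (U l s.1.1 s.1.2 * V l s.2.1 s.2.2) *
        ∑ y, A (s.1.1, a) (s.1.2, y) * B (s.2.1, y) (s.2.2, b) := by
    intro l
    rw [Matrix.mul_apply, Fintype.sum_prod_type (f := fun s : (Fin q × Fin q) × (Fin q × Fin q) =>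
      algebraMap K R (U l s.1.1 s.1.2 * V l s.2.1 s.2.2) *
        ∑ y, A (s.1.1, a) (s.1.2, y) * B (s.2.1, y) (s.2.2, b))]
    simp only [Matrix.of_apply]
    have e3 : ∀ y, (∑ t : Fin q × Fin q, algebraMap K R (U l t.1 t.2) *
          A (t.1, a) (t.2, y)) * (∑ t : Fin q × Fin q, algebraMap K R (V l t.1 t.2) *
          B (t.1, y) (t.2, b)) = ∑ s1 : Fin q × Fin q, ∑ s2 : Fin q × Fin q,
        (algebraMap K R (U l s1.1 s1.2) * A (s1.1, a) (s1.2, y)) *
          (algebraMap K R (V l s2.1 s2.2) * B (s2.1, y) (s2.2, b)) := by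
      intro y
      exact Finset.sum_mul_sum _ _ _ _
    simp only [e3]
    rw [Finset.sum_comm]
    refine Finset.sum_congr rfl fun s1 _ => ?_
    rw [Finset.sum_comm]
    refine Finset.sum_congr rfl fun s2 _ => ?_
    rw [Finset.mul_sum]
    refine Finset.sum_congr rfl fun y _ => ?_
    rw [map_mul]
    ring
  simp only [e1]
  have e2 : ∑ l, algebraMap K R (W l i k) * ∑ s : (Fin q × Fin q) × (Fin q × Fin q),
      algebraMap K R (U l s.1.1 s.1.2 * V l s.2.1 s.2.2) *
        ∑ y, A (s.1.1, a) (s.1.2, y) * B (s.2.1, y) (s.2.2, b) =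
      ∑ s : (Fin q × Fin q) × (Fin q × Fin q),
        algebraMap K R (∑ l, U l s.1.1 s.1.2 * V l s.2.1 s.2.2 * W l i k) *
        ∑ y, A (s.1.1, a) (s.1.2, y) * B (s.2.1, y) (s.2.2, b) := by
    simp only [Finset.mul_sum, map_sum, Finset.sum_mul]
    rw [Finset.sum_comm]
    refine Finset.sum_congr rfl fun s _ => ?_
    rw [Finset.sum_comm]
    refine Finset.sum_congr rfl fun y _ => Finset.sum_congr rfl fun l _ => ?_
    simp only [map_mul]
    ring
  rw [e2]
  simp only [hco]
  rw [Matrix.mul_apply]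
  rw [Fintype.sum_prod_type (f := fun s : (Fin q × Fin q) × (Fin q × Fin q) =>
    algebraMap K R (if s.1.1 = i ∧ s.1.2 = s.2.1 ∧ s.2.2 = k then 1 else 0) *
        ∑ y, A (s.1.1, a) (s.1.2, y) * B (s.2.1, y) (s.2.2, b))]
  simp only [Fintype.sum_prod_type]
  rw [Finset.sum_eq_single i]
  · refine Finset.sum_congr rfl fun j _ => ?_
    rw [Finset.sum_eq_single j, Finset.sum_eq_single k]
    · simp
    · intro k' _ hk
      rw [if_neg (by rintro ⟨_, _, h3⟩; exact hk h3)]
      simp
    · simp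
    · intro j' _ hj
      refine Finset.sum_eq_zero fun k' _ => ?_
      rw [if_neg (by rintro ⟨_, h2, _⟩; exact hj h2.symm)]
      simp
    · simp
  · intro i' _ hi
    refine Finset.sum_eq_zero fun j _ => Finset.sum_eq_zero fun j' _ =>
      Finset.sum_eq_zero fun k' _ => ?_
    rw [if_neg (by rintro ⟨h1, _, _⟩; exact hi h1)]
    simp
  · simp

/-- The recursive step. The `k² t × k² t` matrices are `k × k` matrices of blocks of size `k t`; the
linear combinations of the blocks are the products of `c` constant `k² × k²` matrices with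
`t²` matrices of the same size whose entries are entries of the given matrices. -/
theorem CostMM.step {k c t : ℕ} (hr : RankLE K k k k (c * (k * k))) {f g : ℕ}
    (hf : CostMM K (Fin k × Fin t) f) (hg : CostMM K (Fin k × Fin k) g) :
    CostMM K (Fin k × (Fin k × Fin t))
      (c * k ^ 2 * f + 3 * (c * t ^ 2 * g) + c * k ^ 2 * (k * t) ^ 2) := by
  classical
  obtain ⟨U0, V0, W0, hco0⟩ := hr
  let e : Fin c × (Fin k × Fin k) ≃ Fin (c * (k * k)) := Fintype.equivOfCardEq (by simp)
  let U : Fin c × (Fin k × Fin k) → Matrix (Fin k) (Fin k) K := fun l => U0 (e l)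
  let V : Fin c × (Fin k × Fin k) → Matrix (Fin k) (Fin k) K := fun l => V0 (e l)
  let W : Fin c × (Fin k × Fin k) → Matrix (Fin k) (Fin k) K := fun l => W0 (e l)
  have hco : ∀ (i i' : Fin k) (j j' : Fin k) (l l' : Fin k),
      ∑ s, U s i j * V s j' l * W s i' l' = if i = i' ∧ j = j' ∧ l = l' then 1 else 0 := by
    intro i i' j j' l l'
    rw [← hco0 i i' j j' l l']
    exact Equiv.sum_comp e (fun s => U0 s i j * V0 s j' l * W0 s i' l')
  intro R _ _ T hT A B hA hB
  have h0 : (0 : R) ∈ T := by simpa using hT 0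
  let A' : Fin c × (Fin k × Fin k) → Matrix (Fin k × Fin t) (Fin k × Fin t) R := fun l =>
    Matrix.of fun x y => ∑ s : Fin k × Fin k, algebraMap K R (U l s.1 s.2) * A (s.1, x) (s.2, y)
  let B' : Fin c × (Fin k × Fin k) → Matrix (Fin k × Fin t) (Fin k × Fin t) R := fun l =>
    Matrix.of fun x y => ∑ s : Fin k × Fin k, algebraMap K R (V l s.1 s.2) * B (s.1, x) (s.2, y)
  let PA : Set R := {z | ∃ l x y, z = A' l x y}
  let PB : Set R := {z | ∃ l x y, z = B' l x y}
  have hPA : Cost T PA (c * t ^ 2 * g) := by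
    refine (cost_tall hg T hT (α := Fin c) (β := Fin t × Fin t)
      (fun a p i => algebraMap K R (U (a, p) i.1 i.2))
      (fun b i q => A (i.1, (q.1, b.1)) (i.2, (q.2, b.2))) (fun _ _ _ => hT _)
      (fun _ _ _ => hA _ _)).mono subset_rfl ?_ (le_of_eq ?_)
    · rintro z ⟨l, x, y, rfl⟩
      exact ⟨l.1, (x.2, y.2), l.2, (x.1, y.1), rfl⟩
    · simp only [Fintype.card_prod, Fintype.card_fin]
      ring
  have hPB : Cost T PB (c * t ^ 2 * g) := by
    refine (cost_tall hg T hT (α := Fin c) (β := Fin t × Fin t)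
      (fun a p i => algebraMap K R (V (a, p) i.1 i.2))
      (fun b i q => B (i.1, (q.1, b.1)) (i.2, (q.2, b.2))) (fun _ _ _ => hT _)
      (fun _ _ _ => hB _ _)).mono subset_rfl ?_ (le_of_eq ?_)
    · rintro z ⟨l, x, y, rfl⟩
      exact ⟨l.1, (x.2, y.2), l.2, (x.1, y.1), rfl⟩
    · simp only [Fintype.card_prod, Fintype.card_fin]
      ring
  -- the products
  let PC : Set R := ⋃ l : Fin c × (Fin k × Fin k), {x | ∃ i j, x = (A' l * B' l) i j}
  have hPC : Cost (T ∪ (PA ∪ PB)) PC (c * k ^ 2 * f) := by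
    have h1 := Cost.iUnion (T := T ∪ (PA ∪ PB)) (ι := Fin c × (Fin k × Fin k))
      (P := fun l => {x | ∃ i j, x = (A' l * B' l) i j}) (s := f) ?_
    · refine h1.mono subset_rfl subset_rfl (le_of_eq ?_)
      simp only [Fintype.card_prod, Fintype.card_fin]
      ring
    · intro l
      refine hf R _ (fun c => Or.inl (hT c)) (A' l) (B' l) ?_ ?_
      · intro i j
        exact Or.inr (Or.inl ⟨l, i, j, rfl⟩)
      · intro i j
        exact Or.inr (Or.inr ⟨l, i, j, rfl⟩)
  have hABC : Cost T ((PA ∪ PB) ∪ PC) ((c * t ^ 2 * g + c * t ^ 2 * g) + c * k ^ 2 * f) :=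
    (hPA.union hPB).comp hPC
  -- the partial sums for the outputs
  let T1 : Set R := T ∪ ((PA ∪ PB) ∪ PC)
  let S : Fin c → (Fin t × Fin t) → (Fin k × Fin k) → (Fin k × Fin k) → R := fun a b p q =>
    ∑ i : Fin k × Fin k, algebraMap K R (W (a, i) p.1 p.2) *
      (A' (a, i) * B' (a, i)) (q.1, b.1) (q.2, b.2)
  let PS : Set R := {z | ∃ a b p q, z = S a b p q}
  have hPS : Cost T1 PS (c * t ^ 2 * g) := by
    have h1 := Cost.iUnion (T := T1) (ι := Fin c)
      (P := fun a => {x | ∃ (_ : Unit) (b : Fin t × Fin t) (p q : Fin k × Fin k),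
        x = ∑ i : Fin k × Fin k, algebraMap K R (W (a, i) p.1 p.2) *
          (A' (a, i) * B' (a, i)) (q.1, b.1) (q.2, b.2)})
      (s := Fintype.card Unit * Fintype.card (Fin t × Fin t) * g) (fun a =>
        cost_tall hg T1 (fun c => Or.inl (hT c)) (α := Unit) (β := Fin t × Fin t)
          (fun _ p i => algebraMap K R (W (a, i) p.1 p.2))
          (fun b i q => (A' (a, i) * B' (a, i)) (q.1, b.1) (q.2, b.2))
          (fun _ _ _ => Or.inl (hT _))
          (fun b i q => Or.inr (Or.inr (Set.mem_iUnion.2 ⟨(a, i), _, _, rfl⟩))))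
    refine h1.mono subset_rfl ?_ (le_of_eq ?_)
    · rintro z ⟨a, b, p, q, rfl⟩
      exact Set.mem_iUnion.2 ⟨a, (), b, p, q, rfl⟩
    · simp only [Fintype.card_prod, Fintype.card_fin, Fintype.card_unit]
      ring
  -- the outputs
  let PD : Set R := Set.range fun s : (Fin t × Fin t) × ((Fin k × Fin k) × (Fin k × Fin k)) =>
    ∑ a, S a s.1 s.2.1 s.2.2
  have hPD : Cost (T1 ∪ PS) PD (c * k ^ 2 * (k * t) ^ 2) := by
    have h1 : Cost (T1 ∪ PS) PD (Fintype.card
        ((Fin t × Fin t) × ((Fin k × Fin k) × (Fin k × Fin k))) * (univ : Finset (Fin c)).card) := by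
      refine Cost.range (T := T1 ∪ PS) (x := fun s : (Fin t × Fin t) ×
        ((Fin k × Fin k) × (Fin k × Fin k)) => ∑ a, S a s.1 s.2.1 s.2.2) fun s => ?_
      exact Cost.sum (T := T1 ∪ PS) (Or.inl (Or.inl h0)) univ (fun a => S a s.1 s.2.1 s.2.2)
        fun a _ => Or.inr ⟨a, s.1, s.2.1, s.2.2, rfl⟩
    refine h1.mono subset_rfl subset_rfl (le_of_eq ?_)
    simp only [Fintype.card_prod, Fintype.card_fin, Finset.card_univ]
    ring
  have hall := hABC.comp (hPS.comp hPD)
  refine hall.mono subset_rfl ?_ (le_of_eq (by ring))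
  rintro _ ⟨⟨i, a⟩, ⟨j, b⟩, rfl⟩
  right
  right
  refine ⟨((a.2, b.2), ((i, j), (a.1, b.1))), ?_⟩
  simp only [S]
  rw [← identity U V W hco A B i j a b, Fintype.sum_prod_type]

end Pool.Agent.H703.NL
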